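import Pool.Agent.Lib.MP_6d445e_gt.Iface

/-!
# ST1: a condition of Miller forcing which makes a set good over `N`
-/

universe u v w

open Cardinal Filter

namespace Pool.Agent.Lib.MP_6d445e_gt.H4

open Pool.Agent.Lib.MP_100a6c_lc
open Pool.Agent.Lib.MP_c5d73d_lc.F (pr)
open Pool.Agent.Lib.MP_e6fef2_lc
open Pool.Agent.Lib.MP_6d445e_gt

/-! ## General tools -/

theorem countable_in {N : Set El.{u}} (hN : N.Countable) (T : Type u) :
    Countable {t : T // In N t} := by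
  have := hN.to_subtype
  refine Function.Injective.countable
    (f := fun t : {t : T // In N t} => (⟨⟨T, t.1⟩, t.2⟩ : N)) ?_
  intro a b h
  have h1 : (⟨T, a.1⟩ : El.{u}) = ⟨T, b.1⟩ := congrArg (fun n : N => n.1) h
  exact Subtype.ext (by simpa using h1)

theorem countable_in' {N : Set El.{u}} (hN : N.Countable) (T : Type u) (p : T → Prop) :
    Countable {t : T // In N t ∧ p t} := by
  have := countable_in hN T
  refine Function.Injective.countable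
    (f := fun t : {t : T // In N t ∧ p t} => (⟨t.1, t.2.1⟩ : {t : T // In N t})) ?_
  intro a b h
  have h1 : a.1 = b.1 := congrArg (fun n : {t : T // In N t} => n.1) h
  exact Subtype.ext h1

section

variable {A : Type u} [CompleteBooleanAlgebra A]

theorem fv_eq {F : ℕ → ℕ → A} (hF : IsFN F) :
    ∀ᶠ g in ae A, ∀ n k, F n k ∈ g ↔ fv F g n = k := by
  filter_upwards [hF] with g hg n k
  obtain ⟨k0, h1, h2⟩ := hg n
  have h3 : {k | F n k ∈ g} = {k0} := by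
    ext k'
    exact ⟨fun h => h2 k' h, fun h => by rw [Set.mem_singleton_iff.1 h]; exact h1⟩
  have h4 : fv F g n = k0 := by
    unfold fv
    rw [h3]
    exact csInf_singleton k0
  rw [h4]
  exact ⟨fun h => (h2 k h).symm, fun h => h ▸ h1⟩

theorem meas_fv {F : ℕ → ℕ → A} (hF : IsFN F) (n : ℕ) : Measurable fun g : Ult A => fv F g n :=
  measurable_of_fibers fun k => ⟨F n k, (fv_eq hF).mono fun _ hg => hg n k⟩

theorem meas_mem (a : A) : Measurable fun g : Ult A => a ∈ g :=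
  measurableSet_setOfPred.1 (measurable_mem A a)

end

section

variable {A C : Type u} [CompleteBooleanAlgebra A] [CompleteBooleanAlgebra C]

theorem itp_le_of_le (hitp : ItpStatement.{u}) {f : A → C} (hf : IsCE f) {π : C → A}
    (hπ : AddM f π) {c : C} {x : ℕ → C} {z : ℕ → A} {m : ℕ} (h : c ≤ x m) :
    itp f π c x z ≤ z m := by
  obtain ⟨hagr, -, -, -, hall⟩ := hitp A C f hf
  obtain ⟨hbot, -, -, -, hlin, -, -, -, -⟩ := hall π hπ
  have h1 : itp f π (c ⊓ f (z m)ᶜ) x z ≤ ⊥ := by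
    refine (iInf_le _ (m + 1)).trans ?_
    have h2 : c ⊓ f (z m)ᶜ ⊓ agr f z x (m + 1) = ⊥ := by
      rw [← le_bot_iff]
      refine le_of_ae (Filter.Eventually.of_forall fun g hg => ?_)
      rw [g.mem_inf, g.mem_inf, hagr, hf.compl, g.mem_compl] at hg
      exact absurd ((hg.2 m (Nat.lt_succ_self m)).2 (g.mono h hg.1.1)) hg.1.2
    rw [h2, hbot]
  rw [hlin] at h1
  rw [← compl_compl (z m), le_compl_iff_disjoint_right, disjoint_iff]
  exact le_bot_iff.1 h1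

end

/-! ## Miller forcing -/

/-- The facts on Miller forcing which are used, in an abstract form. -/
structure Mil {A C M : Type u} [CompleteBooleanAlgebra A] [CompleteBooleanAlgebra C] (f : A → C)
    (G : M → C) (le : M → M → A) (fo : M → C → A) (nd : List ℕ → C) (lp : List ℕ → C → A) :
    Prop where
  ce : IsCE f
  fo_iff : ∀ τ c a, a ≤ fo τ c ↔ f a ⊓ G τ ≤ c
  fo_G : ∀ τ τ', fo τ (G τ') = le τ τ'
  addm : ∀ t, AddM f (lp t)
  nd_anti : ∀ t t', t <+: t' → nd t' ≤ nd t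

section

variable {A C M : Type u} [CompleteBooleanAlgebra A] [CompleteBooleanAlgebra C] {f : A → C}
    {G : M → C} {le : M → M → A} {fo : M → C → A} {nd : List ℕ → C} {lp : List ℕ → C → A}

theorem Mil.fo_mem (hm : Mil f G le fo nd lp) {τ : M} {c : C} {h : Ult C}
    (h1 : f (fo τ c) ∈ h) (h2 : G τ ∈ h) : c ∈ h :=
  h.mono ((hm.fo_iff τ c (fo τ c)).1 le_rfl) (h.mem_inf.2 ⟨h1, h2⟩)

theorem Mil.itp_mem (hm : Mil f G le fo nd lp) (hitp : ItpStatement.{u})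
    {t : List ℕ} {τ : M} {x : ℕ → C} {z : ℕ → A} {m : ℕ}
    {g : Ult A} (h1 : itp f (lp t) (G τ) x z ∈ g) (h2 : fo τ (x m) ∈ g) : z m ∈ g := by
  have h3 : G τ ⊓ f (fo τ (x m)) ≤ x m := by
    rw [inf_comm]
    exact (hm.fo_iff τ _ _).1 le_rfl
  have h4 := itp_le_of_le hitp hm.ce (hm.addm t) (z := z) h3
  obtain ⟨-, -, -, -, hall⟩ := hitp A C f hm.ce
  obtain ⟨-, -, -, -, hlin, -, -, -, -⟩ := hall (lp t) (hm.addm t)
  rw [hlin] at h4
  exact g.mono h4 (g.mem_inf.2 ⟨h1, h2⟩)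

theorem Mil.le_fo (hm : Mil f G le fo nd lp) (τ τ' : M) (c : C) :
    le τ' τ ⊓ fo τ c ≤ fo τ' c := by
  rw [hm.fo_iff]
  have a1 : f (le τ' τ) ⊓ G τ' ≤ G τ := (hm.fo_iff τ' (G τ) _).1 (hm.fo_G τ' τ).ge
  have a2 : f (fo τ c) ⊓ G τ ≤ c := (hm.fo_iff τ c _).1 le_rfl
  have a3 := (all_alg A C f hm.ce).2.2.1 (le τ' τ) (fo τ c)
  rw [a3]
  refine le_trans (le_inf (inf_le_left.trans inf_le_right) ?_) a2
  exact le_trans (le_inf (inf_le_left.trans inf_le_left) inf_le_right) a1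

end

/-! ## Slaloms -/

section

variable {A : Type u} [CompleteBooleanAlgebra A]

theorem sl_bot : Sl (fun _ : ℕ => (⊥ : A)) :=
  ⟨fun _ => 0, Filter.Eventually.of_forall fun g _ p => by simp [g.not_bot]⟩

theorem sl_adn (hsla : SlaStatement.{u}) {x y : ℕ → A} (hx : Sl x) (hy : Sl y) (k : ℕ) :
    Sl (adn x y k) := by
  obtain ⟨-, -, h3, h4, -⟩ := hsla A
  obtain ⟨r, hr⟩ := hx
  obtain ⟨r', hr'⟩ := hy
  refine ⟨_, h4 _ _ _ _ (fun n => inf_le_right.trans ?_) (h3 r r' ⊤ x y hr hr')⟩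
  exact sup_le_sup_left (iSup_le fun _ => le_rfl) _

theorem le_adn (x y : ℕ → A) (k n : ℕ) : x n ≤ adn x y k n := le_sup_left

theorem le_adn' (x y : ℕ → A) (k n : ℕ) (h : k ≤ n.unpair.1) : y n ≤ adn x y k n :=
  (le_iSup_of_le h le_rfl : y n ≤ ⨆ _ : k ≤ n.unpair.1, y n).trans le_sup_right

theorem disn_mem (n : ℕ) (x Y : ℕ → A) : ∀ᶠ g in ae A,
    (∀ m, n ≤ m.unpair.1 → x m ∈ g → Y m ∈ g → False) → disn n x Y ∈ g := by
  unfold disn
  have h1 : ∀ p, ∀ᶠ g in ae A, ((⨅ _ : n ≤ p, ⨅ i, (x (Nat.pair p i) ⊓ Y (Nat.pair p i))ᶜ) ∈ g ↔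
      ∀ _ : n ≤ p, (⨅ i, (x (Nat.pair p i) ⊓ Y (Nat.pair p i))ᶜ) ∈ g) := fun p => ae_iInf _
  have h2 : ∀ p, ∀ᶠ g in ae A, ((⨅ i, (x (Nat.pair p i) ⊓ Y (Nat.pair p i))ᶜ) ∈ g ↔
      ∀ i, (x (Nat.pair p i) ⊓ Y (Nat.pair p i))ᶜ ∈ g) := fun p => ae_iInf _
  filter_upwards [ae_iInf fun p => ⨅ _ : n ≤ p, ⨅ i, (x (Nat.pair p i) ⊓ Y (Nat.pair p i))ᶜ,
    ae_all h1, ae_all h2] with g g0 g1 g2 h
  rw [g0]
  intro p
  rw [g1 p]
  intro hp
  rw [g2 p]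
  intro i
  rw [g.mem_compl, g.mem_inf]
  rintro ⟨h3, h4⟩
  exact h (Nat.pair p i) (by simpa using hp) h3 h4

theorem cut_mem (Y : ℕ → A) : ∀ᶠ g in ae A,
    (∀ m, ∃ k, m ≤ k ∧ ∀ n : ℕ, Y n ∈ g → n.unpair.1 < k → n.unpair.2 < k) → cut Y ∈ g := by
  unfold cut
  have h1 : ∀ k p, ∀ᶠ g in ae A,
      ((⨅ _ : p < k, ⨅ i, ⨅ _ : k ≤ i, (Y (Nat.pair p i))ᶜ) ∈ g ↔
        ∀ _ : p < k, (⨅ i, ⨅ _ : k ≤ i, (Y (Nat.pair p i))ᶜ) ∈ g) := fun k p => ae_iInf _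
  have h2 : ∀ k p, ∀ᶠ g in ae A, ((⨅ i, ⨅ _ : k ≤ i, (Y (Nat.pair p i))ᶜ) ∈ g ↔
        ∀ i, (⨅ _ : k ≤ i, (Y (Nat.pair p i))ᶜ) ∈ g) := fun k p => ae_iInf _
  have h3 : ∀ k p i, ∀ᶠ g in ae A, ((⨅ _ : k ≤ i, (Y (Nat.pair p i))ᶜ) ∈ g ↔
        ∀ _ : k ≤ i, (Y (Nat.pair p i))ᶜ ∈ g) := fun k p i => ae_iInf _
  have h4 : ∀ k, ∀ᶠ g in ae A,
      ((⨅ p, ⨅ _ : p < k, ⨅ i, ⨅ _ : k ≤ i, (Y (Nat.pair p i))ᶜ) ∈ g ↔
        ∀ p, (⨅ _ : p < k, ⨅ i, ⨅ _ : k ≤ i, (Y (Nat.pair p i))ᶜ) ∈ g) := fun k => ae_iInf _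
  filter_upwards [ae_iInf fun m => ⨆ k, ⨆ _ : m ≤ k, ⨅ p, ⨅ _ : p < k, ⨅ i, ⨅ _ : k ≤ i,
    (Y (Nat.pair p i))ᶜ, ae_all fun k => ae_all (h1 k), ae_all fun k => ae_all (h2 k),
    ae_all fun k => ae_all fun p => ae_all (h3 k p), ae_all h4] with g g0 g1 g2 g3 g4 h
  rw [g0]
  intro m
  obtain ⟨k, hk, h5⟩ := h m
  refine g.mono (le_iSup_of_le k (le_iSup_of_le hk le_rfl)) ?_
  rw [g4 k]
  intro p
  rw [g1 k p]
  intro hp
  rw [g2 k p]
  intro i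
  rw [g3 k p i]
  intro hi
  rw [g.mem_compl]
  intro h6
  have := h5 _ h6 (by simpa using hp)
  simp only [Nat.unpair_pair] at this
  omega

end

/-! ## States -/

/-- The largest entry. -/
def qt (t : List ℕ) : ℕ := t.foldr max 0

theorem le_qt {t : List ℕ} {i : ℕ} (h : i ∈ t) : i ≤ qt t := by
  induction t with
  | nil => simp at h
  | cons a t ih =>
    unfold qt at ih ⊢
    simp only [List.foldr_cons]
    rcases List.mem_cons.1 h with rfl | h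
    · exact le_max_left _ _
    · exact (ih h).trans (le_max_right _ _)

/-- The points of the block with index `b`. -/
def InB (J om lam rho : ℕ → ℕ) (b : ℕ × ℕ) (m : ℕ) : Prop :=
  m.unpair.1 = Nat.pair (J b.1) (om b.2) ∧ lam b.1 ≤ m.unpair.2 ∧ m.unpair.2 ≤ rho b.1

/-- States. -/
structure Sta (A C M : Type u) [CompleteBooleanAlgebra C] (N : Set El.{u}) where
  hist : List (ℕ × ℕ)
  t : List ℕ
  τ : M
  x : ℕ → C
  z : ℕ → A
  hτ : In N τ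
  hx : In N x
  hs : Sl x
  hz : In N z

theorem sta_countable {A C M : Type u} [CompleteBooleanAlgebra C] {N : Set El.{u}}
    (hN : N.Countable) : Countable (Sta A C M N) := by
  have h1 := countable_in hN M
  have h2 := countable_in hN (ℕ → C)
  have h3 := countable_in hN (ℕ → A)
  refine Function.Injective.countable (β := List (ℕ × ℕ) × List ℕ × {τ : M // In N τ} ×
    {x : ℕ → C // In N x} × {z : ℕ → A // In N z})
    (f := fun s => (s.hist, s.t, ⟨s.τ, s.hτ⟩, ⟨s.x, s.hx⟩, ⟨s.z, s.hz⟩)) ?_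
  rintro ⟨a1, a2, a3, a4, a5, _, _, _, _⟩ ⟨b1, b2, b3, b4, b5, _, _, _, _⟩ h
  simp only [Prod.mk.injEq, Subtype.mk.injEq] at h
  obtain ⟨rfl, rfl, rfl, rfl, rfl⟩ := h
  rfl

/-! ## The values of states -/

section

variable {A C M : Type u} [CompleteBooleanAlgebra A] [CompleteBooleanAlgebra C]

/-- The points of the blocks at `g`. -/
def IB (J om lam rho : ℕ → ℕ → A) (g : Ult A) (b : ℕ × ℕ) (m : ℕ) : Prop :=
  InB (fv J g) (fv om g) (fv lam g) (fv rho g) b m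

theorem meas_IB {J om lam rho : ℕ → ℕ → A} (hJ : IsFN J) (hom : IsFN om) (hlam : IsFN lam)
    (hrho : IsFN rho) (b : ℕ × ℕ) (m : ℕ) : Measurable fun g => IB J om lam rho g b m := by
  have h1 : Measurable fun g : Ult A => (fv J g b.1, fv om g b.2, fv lam g b.1, fv rho g b.1) :=
    (meas_fv hJ _).prodMk ((meas_fv hom _).prodMk ((meas_fv hlam _).prodMk (meas_fv hrho _)))
  have h2 : MeasurableSet {q : ℕ × ℕ × ℕ × ℕ | m.unpair.1 = Nat.pair q.1 q.2.1 ∧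
    q.2.2.1 ≤ m.unpair.2 ∧ m.unpair.2 ≤ q.2.2.2} := MeasurableSet.of_discrete
  exact measurableSet_setOfPred.1 (h1 h2)

/-- The value of a state. -/
def Gd (f : A → C) (G : M → C) (fo : M → C → A) (lp : List ℕ → C → A) (stm : M → List ℕ → A)
    {N : Set El.{u}} (J om lam rho : ℕ → ℕ → A) (a : A) (c : C) (s : Sta A C M N) (g : Ult A) :
    Prop :=
  gen A N ∈ g ∧ a ∈ g ∧ fo s.τ c ∈ g ∧ stm s.τ s.t ∈ g ∧ itp f (lp s.t) (G s.τ) s.x s.z ∈ g ∧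
    ∀ b m, b ∈ s.hist → IB J om lam rho g b m → s.z m ∉ g

theorem meas_Gd (f : A → C) (G : M → C) (fo : M → C → A) (lp : List ℕ → C → A)
    (stm : M → List ℕ → A) {N : Set El.{u}} {J om lam rho : ℕ → ℕ → A} (hJ : IsFN J)
    (hom : IsFN om) (hlam : IsFN lam) (hrho : IsFN rho) (a : A) (c : C) (s : Sta A C M N) :
    Measurable fun g => Gd f G fo lp stm J om lam rho a c s g := by
  unfold Gd
  refine (meas_mem _).and ((meas_mem _).and ((meas_mem _).and ((meas_mem _).and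
    ((meas_mem _).and ?_))))
  refine Measurable.forall fun b => Measurable.forall fun m => ?_
  exact measurable_const.imp ((meas_IB hJ hom hlam hrho b m).imp (meas_mem _).not)

/-- The transition from one state to the next one. -/
def Ed (fo : M → C → A) {N : Set El.{u}} (J om rho th : ℕ → ℕ → A) (xn : ℕ → C) (D : Set C)
    (n : ℕ) (s s' : Sta A C M N) (l : ℕ) (g : Ult A) : Prop :=
  s'.hist = (l, qt s'.t) :: s.hist ∧ s.t ++ [l] <+: s'.t ∧ qt s.t < l ∧ fv th g (qt s.t) ≤ l ∧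
  (∀ b, b ∈ s.hist → Nat.pair (fv J g b.1) (fv om g b.2) < fv J g l ∧ fv rho g b.1 < fv J g l) ∧
  (∃ k, s'.x = adn s.x xn k) ∧
  (∃ d : {d : C // In N d}, d.1 ∈ D ∧ fo s'.τ d.1 ∈ g) ∧
  ∀ i, i ≤ n → (fo s'.τ (s'.x i) ∈ g ∨ fo s'.τ (s'.x i)ᶜ ∈ g)

theorem meas_Ed (fo : M → C → A) {N : Set El.{u}} (hN : N.Countable) {J om rho th : ℕ → ℕ → A}
    (hJ : IsFN J) (hom : IsFN om) (hrho : IsFN rho) (hth : IsFN th) (xn : ℕ → C) (D : Set C)
    (n : ℕ) (s s' : Sta A C M N) (l : ℕ) :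
    Measurable fun g => Ed fo J om rho th xn D n s s' l g := by
  have := countable_in hN C
  unfold Ed
  refine measurable_const.and (measurable_const.and (measurable_const.and (Measurable.and ?_
    (Measurable.and ?_ (measurable_const.and (Measurable.and ?_ ?_))))))
  · have h2 : MeasurableSet {q : ℕ | q ≤ l} := MeasurableSet.of_discrete
    exact measurableSet_setOfPred.1 (meas_fv hth (qt s.t) h2)
  · refine Measurable.forall fun b => measurable_const.imp ?_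
    have h1 : Measurable fun g : Ult A => (fv J g b.1, fv om g b.2, fv J g l, fv rho g b.1) :=
      (meas_fv hJ _).prodMk ((meas_fv hom _).prodMk ((meas_fv hJ _).prodMk (meas_fv hrho _)))
    have h2 : MeasurableSet {q : ℕ × ℕ × ℕ × ℕ | Nat.pair q.1 q.2.1 < q.2.2.1 ∧
      q.2.2.2 < q.2.2.1} := MeasurableSet.of_discrete
    exact measurableSet_setOfPred.1 (h1 h2)
  · exact Measurable.exists fun d => measurable_const.and (meas_mem _)
  · exact Measurable.forall fun i => measurable_const.imp ((meas_mem _).or (meas_mem _))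

end

/-! ## Paths -/

section

variable {A C M : Type u} [CompleteBooleanAlgebra A] [CompleteBooleanAlgebra C] {N : Set El.{u}}
  {f : A → C} {G : M → C} {le : M → M → A} {fo : M → C → A} {nd : List ℕ → C}
  {lp : List ℕ → C → A} {stm : M → List ℕ → A}
  {J om lam rho th : ℕ → ℕ → A} {xx : ℕ → ℕ → C} {DD : ℕ → Set C} {g : Ult A}
  {ξ : ℕ → Sta A C M N} {k : ℕ → ℕ} {a : A} {c : C}

theorem path_hist (h0 : (ξ 0).hist = [])
    (h : ∀ n, Ed fo J om rho th (xx n) (DD n) n (ξ n) (ξ (n + 1)) (k n) g) (n : ℕ) (b : ℕ × ℕ) :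
    b ∈ (ξ n).hist ↔ ∃ j, j < n ∧ b = (k j, qt (ξ (j + 1)).t) := by
  induction n with
  | zero => simp [h0]
  | succ n ih =>
    rw [(h n).1, List.mem_cons, ih]
    constructor
    · rintro (h | ⟨j, hj, h⟩)
      · exact ⟨n, Nat.lt_succ_self n, h⟩
      · exact ⟨j, Nat.lt_succ_of_lt hj, h⟩
    · rintro ⟨j, hj, h⟩
      rcases Nat.lt_succ_iff_lt_or_eq.1 hj with hj | rfl
      · exact Or.inr ⟨j, hj, h⟩
      · exact Or.inl h

theorem path_x (h : ∀ n, Ed fo J om rho th (xx n) (DD n) n (ξ n) (ξ (n + 1)) (k n) g)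
    {n l : ℕ} (hnl : n ≤ l) (m : ℕ) : (ξ n).x m ≤ (ξ l).x m := by
  induction l, hnl using Nat.le_induction with
  | base => exact le_rfl
  | succ l hl ih =>
    obtain ⟨k', hk'⟩ := (h l).2.2.2.2.2.1
    rw [hk']
    exact ih.trans (le_adn _ _ _ _)

theorem path_dis (hitp : ItpStatement.{u}) (hm : Mil f G le fo nd lp) {h : Ult C}
    (hg : g = h.pull hm.ce) (h0 : (ξ 0).hist = [])
    (he : ∀ n, Ed fo J om rho th (xx n) (DD n) n (ξ n) (ξ (n + 1)) (k n) g)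
    (hd : ∀ n, Gd f G fo lp stm J om lam rho a c (ξ n) g)
    (hG : ∀ n, G (ξ n).τ ∈ h) (n m j : ℕ) (h1 : (ξ n).x m ∈ h)
    (h2 : IB J om lam rho g (k j, qt (ξ (j + 1)).t) m) : False := by
  obtain ⟨l, hl⟩ : ∃ l, l = max (max n m) j := ⟨_, rfl⟩
  have hln : n ≤ l + 1 := by omega
  have hlm : m ≤ l := by omega
  have hlj : j < l + 1 := by omega
  have h3 : (ξ (l + 1)).x m ∈ h := h.mono (path_x he hln m) h1
  rcases (he l).2.2.2.2.2.2.2 m hlm with h4 | h4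
  · have h5 := hm.itp_mem hitp (hd (l + 1)).2.2.2.2.1 h4
    exact (hd (l + 1)).2.2.2.2.2 _ m ((path_hist h0 he (l + 1) _).2 ⟨j, hlj, rfl⟩) h2 h5
  · rw [hg, Ult.mem_pull] at h4
    exact h.mem_compl.1 (hm.fo_mem h4 (hG (l + 1))) h3

theorem path_lt (h0 : (ξ 0).hist = [])
    (he : ∀ n, Ed fo J om rho th (xx n) (DD n) n (ξ n) (ξ (n + 1)) (k n) g) {j n : ℕ}
    (hjn : j < n) : Nat.pair (fv J g (k j)) (fv om g (qt (ξ (j + 1)).t)) < fv J g (k n) ∧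
      fv rho g (k j) < fv J g (k n) :=
  (he n).2.2.2.2.1 _ ((path_hist h0 he n _).2 ⟨j, hjn, rfl⟩)

theorem path_cut (h0 : (ξ 0).hist = [])
    (he : ∀ n, Ed fo J om rho th (xx n) (DD n) n (ξ n) (ξ (n + 1)) (k n) g) (m : ℕ) :
    ∃ K, m ≤ K ∧ ∀ (n j : ℕ), IB J om lam rho g (k j, qt (ξ (j + 1)).t) n →
      n.unpair.1 < K → n.unpair.2 < K := by
  let P : ℕ → ℕ := fun j => Nat.pair (fv J g (k j)) (fv om g (qt (ξ (j + 1)).t))
  have hJP : ∀ n, fv J g (k n) ≤ P n := fun n => Nat.left_le_pair _ _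
  have hP : StrictMono P := strictMono_nat_of_lt_succ fun n =>
    (path_lt h0 he (Nat.lt_succ_self n)).1.trans_le (hJP (n + 1))
  refine ⟨P m, hP.id_le m, fun n j hn hlt => ?_⟩
  obtain ⟨h1, -, h3⟩ := hn
  rw [h1] at hlt
  have hjm : j < m := hP.lt_iff_lt.1 hlt
  exact (h3.trans_lt (path_lt h0 he hjm).2).trans_le (hJP m)

end

/-! ## The abstract theorem -/

theorem st1_abs (hitp : ItpStatement.{u}) (hsla : SlaStatement.{u})
    {A C M : Type u} [CompleteBooleanAlgebra A] [CompleteBooleanAlgebra C] {f : A → C}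
    {G : M → C} {le : M → M → A} {fo : M → C → A} {nd : List ℕ → C} {lp : List ℕ → C → A}
    (hm : Mil f G le fo nd lp) (stm : M → List ℕ → A)
    (N : Set El.{u}) (hN : N.Countable) (hbotN : In N (fun _ : ℕ => (⊥ : C)))
    (hunivN : In N (Set.univ : Set C))
    (hadnN : ∀ (k : ℕ) (x y : ℕ → C), In N x → In N y → In N (adn x y k))
    (J : ℕ → ℕ → A) (hJ : IsFN J)
    (hJm : ∀ᶠ g in ae A, Monotone (fv J g) ∧ ∀ m, ∃ k, m ≤ fv J g k)
    (hsuc : ∀ (t : List ℕ) (τ : M) (x y : ℕ → C) (z : ℕ → A) (D : Set C),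
      In N τ → In N x → In N y → In N z → In N D → Sl x → Sl y → sSup D = ⊤ →
      ∀ᶠ g in ae A, gen A N ∈ g → itp f (lp t) (G τ) x z ∈ g →
      ∀ lam om : ℕ → ℕ, Ub N lam om g → ∀ m, ∃ k l, m ≤ k ∧ k ≤ l ∧
        ∃ (t' : List ℕ) (τ' : M) (z' : ℕ → A) (d : C), In N τ' ∧ In N z' ∧ In N d ∧ d ∈ D ∧
          t ++ [l] <+: t' ∧ le τ' τ ∈ g ∧ stm τ' t' ∈ g ∧ fo τ' d ∈ g ∧
          itp f (lp t') (G τ') (adn x y k) z' ∈ g ∧
          (∀ i ≤ m, fo τ' (adn x y k i) ∈ g ∨ fo τ' (adn x y k i)ᶜ ∈ g) ∧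
          (∀ i < k, z' i ∈ g ↔ z i ∈ g) ∧
          ∀ i, lam l ≤ i → z' (Nat.pair (Nat.pair (fv J g l) (om (t'.foldr max 0))) i) ∉ g)
    (hamf : ∀ (X : Type u) [Countable X] (ndx : X → List ℕ) (τx : X → M) (gd : X → A)
      (ed : ℕ → X → X → A), (∀ s, gd s ≤ stm (τx s) (ndx s)) →
      (∀ n s m, gd s ≤ ⨆ s' : X, ⨆ _ : ∃ l, m ≤ l ∧ ndx s ++ [l] <+: ndx s',
        gd s' ⊓ ed n s s' ⊓ le (τx s') (τx s)) →
      ∀ (s0 : X) (a : A), a ≤ gd s0 → ∃ (p : C) (P : ℕ → X → C), prj f p = a ∧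
        ∀ᶠ h in ae C, p ∈ h → ∃ ξ : ℕ → X, ξ 0 = s0 ∧ ∀ n, (∀ s, P n s ∈ h ↔ s = ξ n) ∧
          f (gd (ξ n)) ∈ h ∧ G (τx (ξ n)) ∈ h ∧ f (ed n (ξ n) (ξ (n + 1))) ∈ h ∧
          nd (ndx (ξ n)) ∈ h)
    (lam rho om th : ℕ → ℕ → A) (hlam : IsFN lam) (hrho : IsFN rho) (hom : IsFN om)
    (hth : IsFN th) (c : C) (a : A) (ha : a ≤ gen A N)
    (hUb : ∀ᶠ g in ae A, a ∈ g → Ub N (fv lam g) (fv om g) g)
    (t0 : List ℕ) (τ0 : M) (z0 : ℕ → A) (hτ0 : In N τ0) (hz0 : In N z0)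
    (hroot : a ⊓ fo τ0 c ⊓ stm τ0 t0 ⊓ itp f (lp t0) (G τ0) (fun _ => ⊥) z0 ≠ ⊥) :
    ∃ p : C, p ≠ ⊥ ∧ p ≤ c ∧ p ≤ f a ∧ ∃ Y : ℕ → C, p ≤ gc N Y ∧
      ∀ᶠ h in ae C, p ∈ h → ∃ (t : ℕ → List ℕ) (q k : ℕ → ℕ), ∀ n,
        (∀ i ∈ t n, i ≤ q n) ∧ q n < k n ∧ k n ≤ q (n + 1) ∧ nd (t n ++ [k n]) ∈ h ∧
        fv th (h.pull hm.ce) (q n) ≤ k n ∧
        ∀ i, fv lam (h.pull hm.ce) (k n) ≤ i → i ≤ fv rho (h.pull hm.ce) (k n) →
          Y (Nat.pair (Nat.pair (fv J (h.pull hm.ce) (k n))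
            (fv om (h.pull hm.ce) (q (n + 1)))) i) ∈ h := by
  have hcS : Countable (Sta A C M N) := sta_countable hN
  -- enumerations
  have hcx := countable_in' hN (ℕ → C) Sl
  have hcD := countable_in' hN (Set C) (fun D => sSup D = ⊤)
  have hnx : Nonempty {x : ℕ → C // In N x ∧ Sl x} := ⟨⟨_, hbotN, sl_bot⟩⟩
  have hnD : Nonempty {D : Set C // In N D ∧ sSup D = ⊤} :=
    ⟨⟨Set.univ, hunivN, top_unique (le_sSup (Set.mem_univ _))⟩⟩
  obtain ⟨xx, hxx⟩ := exists_surjective_nat {x : ℕ → C // In N x ∧ Sl x}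
  obtain ⟨DD, hDD⟩ := exists_surjective_nat {D : Set C // In N D ∧ sSup D = ⊤}
  -- names
  obtain ⟨gd, hgd⟩ := exists_name (J := Sta A C M N)
    (F := fun s g => Gd f G fo lp stm J om lam rho a c s g)
    (fun s => measurableSet_setOfPred.2 (meas_Gd f G fo lp stm hJ hom hlam hrho a c s))
  obtain ⟨ed, hed⟩ := exists_name (J := ℕ × Sta A C M N × Sta A C M N)
    (F := fun q g => ∃ l, Ed fo J om rho th (xx q.1).1 (DD q.1).1 q.1 q.2.1 q.2.2 l g)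
    (fun q => measurableSet_setOfPred.2 (Measurable.exists fun l =>
      meas_Ed fo hN hJ hom hrho hth (xx q.1).1 (DD q.1).1 q.1 q.2.1 q.2.2 l))
  obtain ⟨bl, hbl⟩ := exists_name (J := Sta A C M N × ℕ)
    (F := fun q g => ∃ b, b ∈ q.1.hist ∧ IB J om lam rho g b q.2)
    (fun q => measurableSet_setOfPred.2 (Measurable.exists fun b =>
      measurable_const.and (meas_IB hJ hom hlam hrho b q.2)))
  -- SUC for all states
  have hsuc' : ∀ᶠ g in ae A, ∀ (n : ℕ) (s : Sta A C M N), gen A N ∈ g →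
      itp f (lp s.t) (G s.τ) s.x s.z ∈ g →
      ∀ lam om : ℕ → ℕ, Ub N lam om g → ∀ m, ∃ k l, m ≤ k ∧ k ≤ l ∧
        ∃ (t' : List ℕ) (τ' : M) (z' : ℕ → A) (d : C), In N τ' ∧ In N z' ∧ In N d ∧
          d ∈ (DD n).1 ∧
          s.t ++ [l] <+: t' ∧ le τ' s.τ ∈ g ∧ stm τ' t' ∈ g ∧ fo τ' d ∈ g ∧
          itp f (lp t') (G τ') (adn s.x (xx n).1 k) z' ∈ g ∧
          (∀ i ≤ m, fo τ' (adn s.x (xx n).1 k i) ∈ g ∨ fo τ' (adn s.x (xx n).1 k i)ᶜ ∈ g) ∧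
          (∀ i < k, z' i ∈ g ↔ s.z i ∈ g) ∧
          ∀ i, lam l ≤ i → z' (Nat.pair (Nat.pair (fv J g l) (om (t'.foldr max 0))) i) ∉ g :=
    ae_all fun n => ae_all fun s => hsuc s.t s.τ s.x (xx n).1 s.z (DD n).1 s.hτ s.hx
      (xx n).2.1 s.hz (DD n).2.1 s.hs (xx n).2.2 (DD n).2.2
  have H1 : ∀ s : Sta A C M N, gd s ≤ stm s.τ s.t := fun s =>
    le_of_ae (hgd.mono fun g hg h => ((hg s).1 h).2.2.2.1)
  have H2 : ∀ (n : ℕ) (s : Sta A C M N) (m : ℕ), gd s ≤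
      ⨆ s' : Sta A C M N, ⨆ _ : ∃ l, m ≤ l ∧ s.t ++ [l] <+: s'.t,
        gd s' ⊓ ed (n, s, s') ⊓ le s'.τ s.τ := by
    intro n s m
    refine le_of_ae ?_
    filter_upwards [hgd, hed, hsuc', hUb, hJm] with g g1 g2 g3 g4 g5 hs
    obtain ⟨s1, s2, s3, s4, s5, s6⟩ := (g1 s).1 hs
    obtain ⟨hmono, hunb⟩ := g5
    -- a bound for the old blocks
    obtain ⟨B, hB⟩ : ∃ B, ∀ b, b ∈ s.hist → Nat.pair (fv J g b.1) (fv om g b.2) < B ∧
        fv rho g b.1 < B ∧ Nat.pair (Nat.pair (fv J g b.1) (fv om g b.2)) (fv rho g b.1) < B := by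
      generalize s.hist = L
      induction L with
      | nil => exact ⟨0, by simp⟩
      | cons b L ih =>
        obtain ⟨B, hB⟩ := ih
        refine ⟨max B (max (Nat.pair (fv J g b.1) (fv om g b.2)) (max (fv rho g b.1)
          (Nat.pair (Nat.pair (fv J g b.1) (fv om g b.2)) (fv rho g b.1))) + 1), ?_⟩
        intro b' hb'
        rcases List.mem_cons.1 hb' with rfl | hb'
        · omega
        · obtain ⟨h1, h2, h3⟩ := hB b' hb'
          omega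
    obtain ⟨k0, hk0⟩ := hunb B
    obtain ⟨m', hm'⟩ : ∃ m', m' = max (max (max m n) (max (qt s.t + 1) (fv th g (qt s.t))))
      (max B k0) := ⟨_, rfl⟩
    obtain ⟨k, l, hk, hkl, t', τ', z', d, c1, c2, c3, c4, c5, c6, c7, c8, c9, c10, c11, c12⟩ :=
      g3 n s s1 s5 _ _ (g4 s2) m'
    have hJl : B ≤ fv J g l := hk0.trans (hmono (by omega))
    let s' : Sta A C M N := ⟨(l, qt t') :: s.hist, t', τ', adn s.x (xx n).1 k, z', c1,
      hadnN _ _ _ s.hx (xx n).2.1, sl_adn hsla s.hs (xx n).2.2 k, c2⟩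
    refine g.mono (le_iSup_of_le s' (le_iSup_of_le (⟨l, by omega, c5⟩) le_rfl)) ?_
    refine g.mem_inf.2 ⟨g.mem_inf.2 ⟨(g1 s').2 ?_, (g2 (n, s, s')).2 ⟨l, ?_⟩⟩, c6⟩
    · refine ⟨s1, s2, g.mono (hm.le_fo s.τ τ' c) (g.mem_inf.2 ⟨c6, s3⟩), c7, c9, ?_⟩
      intro b m0 hb hm0
      rcases List.mem_cons.1 hb with rfl | hb
      · obtain ⟨h1, h2, -⟩ := hm0
        have h3 := c12 m0.unpair.2 h2
        rw [← Nat.pair_unpair m0, h1]
        exact h3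
      · obtain ⟨h1, h2, h3⟩ := hB b hb
        have h4 : m0 < k := by
          rw [← Nat.pair_unpair m0, hm0.1]
          refine lt_of_le_of_lt ?_ (h3.trans_le (by omega : B ≤ k))
          rcases hm0.2.2.lt_or_eq with h5 | h5
          · exact (Nat.pair_lt_pair_right _ h5).le
          · rw [h5]
        rw [c11 m0 h4]
        exact s6 b m0 hb hm0
    · have e1 : qt s.t < l := by omega
      have e2 : fv th g (qt s.t) ≤ l := by omega
      refine ⟨rfl, c5, e1, e2, ?_, ⟨k, rfl⟩, ⟨⟨d, c3⟩, c4, c8⟩, ?_⟩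
      · intro b hb
        obtain ⟨h1, h2, h3⟩ := hB b hb
        exact ⟨h1.trans_le hJl, h2.trans_le hJl⟩
      · intro i hi
        exact c10 i (by omega)
  -- the root
  let s0 : Sta A C M N := ⟨[], t0, τ0, fun _ => ⊥, z0, hτ0, hbotN, sl_bot, hz0⟩
  obtain ⟨p, P, hp, hP⟩ := hamf (Sta A C M N) (fun s => s.t) (fun s => s.τ) gd
    (fun n s s' => ed (n, s, s')) H1 H2 s0 (gd s0) le_rfl
  have hgd0 : gd s0 ≠ ⊥ := by
    obtain ⟨g, hg, hg1⟩ := exists_of_ae hgd hroot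
    intro h
    apply g.not_bot
    rw [← h]
    rw [g.mem_inf, g.mem_inf, g.mem_inf] at hg
    exact (hg1 s0).2 ⟨g.mono ha hg.1.1.1, hg.1.1.1, hg.1.1.2, hg.1.2, hg.2, fun b m hb =>
      absurd hb (List.not_mem_nil)⟩
  have hpne : p ≠ ⊥ := by
    rintro rfl
    apply hgd0
    rw [← hp]
    obtain ⟨-, -, -, -, -, -, -, -, -, -, -, -, -, -, -, -, -, h1, -⟩ := all_alg A C f hm.ce
    exact (h1 ⊥).2 rfl
  -- the set
  let Y : ℕ → C := fun m => ⨆ n : ℕ, ⨆ s : Sta A C M N, P n s ⊓ f (bl (s, m))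
  have hY : ∀ᶠ h in ae C, ∀ m, Y m ∈ h ↔ ∃ n s, P n s ∈ h ∧ f (bl (s, m)) ∈ h := by
    refine ae_all fun m => ?_
    filter_upwards [ae_iSup fun n : ℕ => ⨆ s : Sta A C M N, P n s ⊓ f (bl (s, m)),
      ae_all fun n : ℕ => ae_iSup fun s : Sta A C M N => P n s ⊓ f (bl (s, m))] with h h1 h2
    rw [show Y m = ⨆ n : ℕ, ⨆ s : Sta A C M N, P n s ⊓ f (bl (s, m)) from rfl, h1]
    simp only [h2, h.mem_inf]
  -- paths
  have path : ∀ᶠ h in ae C, p ∈ h → ∃ (ξ : ℕ → Sta A C M N) (k : ℕ → ℕ), (ξ 0).hist = [] ∧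
      (∀ n, Gd f G fo lp stm J om lam rho a c (ξ n) (h.pull hm.ce)) ∧
      (∀ n, G (ξ n).τ ∈ h) ∧
      (∀ n, Ed fo J om rho th (xx n).1 (DD n).1 n (ξ n) (ξ (n + 1)) (k n) (h.pull hm.ce)) ∧
      (∀ n, nd (ξ n).t ∈ h) ∧
      ∀ m, Y m ∈ h ↔ ∃ j, IB J om lam rho (h.pull hm.ce) (k j, qt (ξ (j + 1)).t) m := by
    filter_upwards [hP, ae_pull hm.ce hgd, ae_pull hm.ce hed, ae_pull hm.ce hbl, hY] with
      h h1 h2 h3 h5 h6 hph
    obtain ⟨ξ, hξ0, hξ⟩ := h1 hph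
    have h4 : ∀ n, ∃ l, Ed fo J om rho th (xx n).1 (DD n).1 n (ξ n) (ξ (n + 1)) l
        (h.pull hm.ce) := fun n => (h3 (n, ξ n, ξ (n + 1))).1 (hξ n).2.2.2.1
    choose k hk using h4
    have hh0 : (ξ 0).hist = [] := by rw [hξ0]
    refine ⟨ξ, k, hh0, fun n => (h2 (ξ n)).1 (hξ n).2.1, fun n => (hξ n).2.2.1, hk,
      fun n => (hξ n).2.2.2.2, fun m => ?_⟩
    rw [h6 m]
    constructor
    · rintro ⟨n, s, h7, h8⟩
      obtain rfl := ((hξ n).1 s).1 h7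
      obtain ⟨b, hb, h9⟩ := (h5 (ξ n, m)).1 h8
      obtain ⟨j, -, rfl⟩ := (path_hist hh0 hk n b).1 hb
      exact ⟨j, h9⟩
    · rintro ⟨j, hj⟩
      refine ⟨j + 1, ξ (j + 1), ((hξ _).1 _).2 rfl, (h5 (ξ (j + 1), m)).2 ⟨_, ?_, hj⟩⟩
      exact (path_hist hh0 hk (j + 1) _).2 ⟨j, Nat.lt_succ_self j, rfl⟩
  refine ⟨p, hpne, ?_, ?_, Y, ?_, ?_⟩
  · refine le_of_ae (path.mono fun h hh hp => ?_)
    obtain ⟨ξ, k, -, h2, h3, -⟩ := hh hp
    exact hm.fo_mem (h2 0).2.2.1 (h3 0)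
  · refine le_of_ae (path.mono fun h hh hp => ?_)
    obtain ⟨ξ, k, -, h2, h3, -⟩ := hh hp
    exact (h2 0).2.1
  · unfold gc
    refine le_inf (le_inf ?_ ?_) ?_
    · refine le_iInf fun D => le_iInf fun hD => le_iInf fun hD' => ?_
      obtain ⟨n, hn⟩ := hDD ⟨D, hD, hD'⟩
      refine le_of_ae (path.mono fun h hh hp => ?_)
      obtain ⟨ξ, k, -, h2, h3, h4, -⟩ := hh hp
      obtain ⟨d, hd, hfo⟩ := (h4 n).2.2.2.2.2.2.1
      rw [hn] at hd
      exact h.mono (le_iSup_of_le d.1 (le_iSup_of_le hd (le_iSup_of_le d.2 le_rfl)))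
        (hm.fo_mem hfo (h3 (n + 1)))
    · refine le_of_ae ?_
      filter_upwards [path, cut_mem Y] with h hh hc hp
      obtain ⟨ξ, k, h1, h2, h3, h4, h5, h6⟩ := hh hp
      refine hc fun m => ?_
      obtain ⟨K, hK, hK'⟩ := path_cut (lam := lam) h1 h4 m
      refine ⟨K, hK, fun n hn => ?_⟩
      obtain ⟨j, hj⟩ := (h6 n).1 hn
      exact hK' n j hj
    · refine le_iInf fun x => le_iInf fun hx => le_iInf fun hx' => ?_
      obtain ⟨n, hn⟩ := hxx ⟨x, hx, hx'⟩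
      refine le_of_ae ?_
      filter_upwards [path, ae_all fun k => disn_mem k x Y] with h hh hc hp
      obtain ⟨ξ, k, h1, h2, h3, h4, h5, h6⟩ := hh hp
      obtain ⟨k', hk'⟩ := (h4 n).2.2.2.2.2.1
      refine h.mono (le_iSup _ k') (hc k' fun m hm0 hxm hYm => ?_)
      obtain ⟨j, hj⟩ := (h6 m).1 hYm
      refine path_dis hitp hm rfl h1 h4 h2 h3 (n + 1) m j ?_ hj
      rw [hk', hn]
      exact h.mono (le_adn' _ _ _ _ hm0) hxm
  · refine path.mono fun h hh hp => ?_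
    obtain ⟨ξ, k, h1, h2, h3, h4, h5, h6⟩ := hh hp
    refine ⟨fun n => (ξ n).t, fun n => qt (ξ n).t, k, fun n => ⟨fun i => le_qt, (h4 n).2.2.1, ?_,
      ?_, (h4 n).2.2.2.1, fun i hi hi' => ?_⟩⟩
    · refine le_qt ((h4 n).2.1.subset ?_)
      simp
    · exact h.mono (hm.nd_anti _ _ (h4 n).2.1) (h5 (n + 1))
    · rw [h6]
      refine ⟨n, ?_⟩
      unfold IB InB
      simp only [Nat.unpair_pair]
      exact ⟨trivial, hi, hi'⟩

/-! ## The statement -/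

theorem mil (hnd : NdStatement.{u}) (hmxf : MxfStatement.{u}) (hlp : LpStatement.{u})
    (A : Type u) [CompleteBooleanAlgebra A] :
    Mil (C := MC A) (mE A) (mG : MX A → MC A) (MQ A).le fo ND lp where
  ce := by
    have : Nonempty (MX A) := (hnd A).1
    exact (all_tw1 A (MX A) (MQ A)).1
  fo_iff := (hmxf A).2.2.2.2.2.1
  fo_G := (hmxf A).2.2.2.2.2.2
  addm := (hlp A).1
  nd_anti := (hnd A).2.2.1

theorem st1 (hsuc : SucStatement.{u}) (hamf : AmfStatement.{u, u}) (hdens : DensStatement.{u})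
    (hng : NgStatement.{u}) (hitp : ItpStatement.{u}) (hnd : NdStatement.{u})
    (hmxf : MxfStatement.{u}) (hsla : SlaStatement.{u}) (hlp : LpStatement.{u}) :
    St1Statement.{u} := by
  intro A _
  obtain ⟨-, hcnt, hcc, hconst, -, hfun, hfun2, -, -, -, -⟩ := all_club.{u}
  have hm := mil hnd hmxf hlp A
  let φ : MC A → List ℕ × MX A × (ℕ → A) → A := fun c q =>
    fo q.2.1 c ⊓ stm q.2.1 q.1 ⊓ itp (mE A) (lp q.1) (mG q.2.1) (fun _ => ⊥) q.2.2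
  filter_upwards [hcnt, hconst (ℕ → MC A) (fun _ => ⊥), hconst (Set (MC A)) Set.univ,
    hcc _ (fun k => hfun2 (ℕ → MC A) (ℕ → MC A) (ℕ → MC A) (fun x y => adn x y k)),
    hfun (MC A) (List ℕ × MX A × (ℕ → A) → A) φ,
    hfun (List ℕ × MX A × (ℕ → A)) (MX A) (fun q => q.2.1),
    hfun (List ℕ × MX A × (ℕ → A)) (ℕ → A) (fun q => q.2.2), hsuc A,
    hng A (List ℕ × MX A × (ℕ → A))] with N n1 n2 n3 n4 n5 n6 n7 n8 n9
  intro c hc J hJN hJ hJm lam rho om th hlam hrho hom hth a ha0 ha hUb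
  have r1 : prj (mE A) c ≤ ⨆ q, φ c q := (hdens A c (fun _ => ⊥)).trans
    (iSup_le fun t => iSup_le fun τ => iSup_le fun z => le_iSup (φ c) (t, τ, z))
  obtain ⟨g, hg, hgg⟩ := exists_of_ae n9 ha0
  obtain ⟨q, hq, hq'⟩ := hgg (g.mono (ha.trans inf_le_left) hg) (φ c) (n5 c hc)
    (g.mono (ha.trans (inf_le_right.trans r1)) hg)
  have hroot : a ⊓ fo q.2.1 c ⊓ stm q.2.1 q.1 ⊓
      itp (mE A) (lp q.1) (mG q.2.1) (fun _ => ⊥) q.2.2 ≠ ⊥ := by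
    intro h
    apply g.not_bot
    rw [← h, inf_assoc, inf_assoc, ← inf_assoc (fo q.2.1 c)]
    exact g.mem_inf.2 ⟨hg, hq'⟩
  obtain ⟨p, p1, p2, p3, Y, p4, p5⟩ := st1_abs hitp hsla hm stm N n1 n2 n3 n4 J hJ hJm
    (fun t τ x y z D h1 h2 h3 h4 h5 h6 h7 h8 =>
      n8 t τ x y z D J h1 h2 h3 h4 h5 hJN h6 h7 h8 hJ hJm)
    (fun X _ ndx τx gd ed h1 h2 s0 a ha => by
      obtain ⟨p, P, hp, hP⟩ := hamf A (fun _ => X) (fun _ => ndx) (fun _ => τx) (fun _ => gd) ed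
        (fun _ s => h1 s) h2 s0 a ha
      refine ⟨p, P, hp, hP.mono fun h hh hph => ?_⟩
      obtain ⟨ξ, h0, h1⟩ := hh hph
      exact ⟨ξ, h0, fun n => ⟨(h1 n).1, (h1 n).2.1, (h1 n).2.2.1, (h1 n).2.2.2.1,
        (h1 n).2.2.2.2.1⟩⟩)
    lam rho om th hlam hrho hom hth c a (ha.trans inf_le_left) hUb q.1 q.2.1 q.2.2
    (n6 q hq) (n7 q hq) hroot
  refine ⟨p, p1, p2, p3, Y, p4, p5.mono fun h hh hp g hg => ?_⟩
  have hgh : h.pull hm.ce = g := Ult.ext (Set.ext fun b => (hg b).symm)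
  have h1 := hh hp
  rw [hgh] at h1
  exact h1

end Pool.Agent.Lib.MP_6d445e_gt.H4
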