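import Pool.Agent.Lib.MP_6d445e_gt.W.Iface4
import Pool.Agent.Lib.MP_6d445e_gt.H59.Ndmx
import Pool.Agent.Lib.MP_6d445e_gt.H95.Sgs

/-!
# TOPMW: the next algebra at successors
-/

universe u v w

open Cardinal Filter

namespace Pool.Agent.Lib.MP_6d445e_gt.H4

open Pool.Agent.Lib.MP_100a6c_lc
open Pool.Agent.Lib.MP_c5d73d_lc.F (pr)
open Pool.Agent.Lib.MP_e6fef2_lc
open Pool.Agent.Lib.MP_e6fef2_lc.H60 (sigC_inf)
open Pool.Agent.Lib.MP_6d445e_gt
open Pool.Agent.Lib.MP_6d445e_gt.H59 (MilExt milExt isMil_inc)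

/-! ## Values in a `σ`-subalgebra -/

section

variable {A : Type u} [CompleteBooleanAlgebra A] {M : Set A}

/-- `P` has a Boolean value in `M`. -/
def VB (M : Set A) (P : Ult A → Prop) : Prop := ∃ a ∈ M, ∀ᶠ g in ae A, a ∈ g ↔ P g

theorem VB.mem {a : A} (ha : a ∈ M) : VB M (fun g => a ∈ g) :=
  ⟨a, ha, Filter.Eventually.of_forall fun _ => Iff.rfl⟩

theorem VB.not (hM : SigC M) {P : Ult A → Prop} (h : VB M P) : VB M (fun g => ¬ P g) := by
  obtain ⟨a, ha, h⟩ := h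
  exact ⟨aᶜ, hM.compl a ha, h.mono fun g hg => by rw [g.mem_compl, hg]⟩

theorem VB.const (hM : SigC M) (p : Prop) : VB M (fun _ => p) := by
  by_cases hp : p
  · exact ⟨⊤, hM.top, Filter.Eventually.of_forall fun g => iff_of_true g.mem_top hp⟩
  · refine ⟨⊥, ?_, Filter.Eventually.of_forall fun g => iff_of_false g.not_bot hp⟩
    have := hM.compl ⊤ hM.top
    rwa [compl_top] at this

theorem VB.ex (hM : SigC M) {J : Sort*} [Countable J] {P : J → Ult A → Prop}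
    (h : ∀ j, VB M (P j)) : VB M (fun g => ∃ j, P j g) := by
  rcases isEmpty_or_nonempty J with hJ | hJ
  · obtain ⟨a, ha, h1⟩ := VB.const hM False
    exact ⟨a, ha, h1.mono fun g hg => hg.trans (iff_of_false id (by simp))⟩
  · obtain ⟨e, he⟩ := exists_surjective_nat J
    choose a ha h using h
    refine ⟨⨆ n, a (e n), hM.sup _ fun n => ha _, ?_⟩
    filter_upwards [ae_iSup fun n => a (e n), ae_all h] with g h1 h2
    rw [h1]
    constructor
    · rintro ⟨n, hn⟩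
      exact ⟨e n, (h2 _).1 hn⟩
    · rintro ⟨j, hj⟩
      obtain ⟨n, rfl⟩ := he j
      exact ⟨n, (h2 _).2 hj⟩

theorem VB.congr {P Q : Ult A → Prop} (h : VB M P) (hPQ : ∀ g, P g ↔ Q g) : VB M Q := by
  obtain ⟨a, ha, h⟩ := h
  exact ⟨a, ha, h.mono fun g hg => hg.trans (hPQ g)⟩

theorem VB.all (hM : SigC M) {J : Sort*} [Countable J] {P : J → Ult A → Prop}
    (h : ∀ j, VB M (P j)) : VB M (fun g => ∀ j, P j g) :=
  (VB.not hM (VB.ex hM fun j => VB.not hM (h j))).congr fun g => by push Not; rfl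

theorem VB.imp (hM : SigC M) {P Q : Ult A → Prop} (hP : VB M P) (hQ : VB M Q) :
    VB M (fun g => P g → Q g) := by
  obtain ⟨a, ha, h1⟩ := hP
  obtain ⟨b, hb, h2⟩ := hQ
  have h3 := VB.all hM (J := Bool) (P := fun j g => if j then (a ⊓ bᶜ)ᶜ ∈ g else True)
    (fun j => by
      cases j
      · simpa using VB.const hM True
      · simpa using VB.mem (hM.compl _ (sigC_inf hM ha (hM.compl _ hb))))
  obtain ⟨c, hc, h4⟩ := h3
  refine ⟨c, hc, ?_⟩
  filter_upwards [h1, h2, h4] with g g1 g2 g4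
  rw [g4, ← g1, ← g2]
  simp only [Bool.forall_bool, Bool.false_eq_true, ↓reduceIte, g.mem_compl, g.mem_inf]
  tauto

theorem VB.and (hM : SigC M) {P Q : Ult A → Prop} (hP : VB M P) (hQ : VB M Q) :
    VB M (fun g => P g ∧ Q g) :=
  (VB.not hM (VB.imp hM hP (VB.not hM hQ))).congr fun g => by tauto

theorem vb_isMil (hM : SigC M) {x : List ℕ → A} (hx : ∀ t, x t ∈ M) :
    VB M (fun g => IsMil {t | x t ∈ g}) := by
  have h : VB M (fun g => x [] ∈ g ∧ (∀ t t', t <+: t' → x t' ∈ g → x t ∈ g) ∧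
      (∀ t, x t ∈ g → Inc t) ∧
      ∀ t, x t ∈ g → ∃ t', t <+: t' ∧ ∀ m, ∃ k, m ≤ k ∧ x (t' ++ [k]) ∈ g) := by
    refine VB.and hM (VB.mem (hx [])) (VB.and hM ?_ (VB.and hM ?_ ?_))
    · exact VB.all hM fun t => VB.all hM fun t' => VB.imp hM (VB.const hM _)
        (VB.imp hM (VB.mem (hx t')) (VB.mem (hx t)))
    · exact VB.all hM fun t => VB.imp hM (VB.mem (hx t)) (VB.const hM _)
    · exact VB.all hM fun t => VB.imp hM (VB.mem (hx t)) (VB.ex hM fun t' =>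
        VB.and hM (VB.const hM _) (VB.all hM fun m => VB.ex hM fun k =>
          VB.and hM (VB.const hM _) (VB.mem (hx _))))
  exact h.congr fun g => ⟨fun h => ⟨h.1, h.2.1, h.2.2.1, h.2.2.2⟩,
    fun h => ⟨h.nil, h.pre, h.inc, h.spl⟩⟩

end

/-! ## Relative density -/

theorem dm_mil {A C : Type u} [CompleteBooleanAlgebra A] [CompleteBooleanAlgebra C] {f : A → C}
    {G : MX A → C} (H : MilExt f G) (ι : H1.RO Sw.{u} → A) (hι : IsCE ι) (hpe : PE ι) (M : Set A)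
    (hM : SigC M) (hdm : DM ι M) (M' : Set C) (hM' : SigC M') (hMM : ∀ x ∈ M, f x ∈ M')
    (hGM : ∀ τ : MX A, (∀ t, τ.1 t ∈ M) → G τ ∈ M') : DM (fun x => f (ι x)) M' := by
  classical
  intro c hc
  obtain ⟨b, τ, hb, hbc⟩ := H.de c hc
  obtain ⟨hne, hcnt, hcc, hconst, -, hfun, -, -, -, -⟩ := all_club.{u}
  have hsgc : SGC Sw.{u} := H95.sgs.1
  -- choose `N`
  have hN : ∀ᶠ N in club.{u}, (∀ b : A, In N b → ∀ s : Sw.{u}, In N s → ι (pr s) ⊓ b ≠ ⊥ →
      ∃ t ≤ s, In N t ∧ ∀ s' ≤ t, SG N s' → ι (pr s') ⊓ (gen A N ⊓ b) ≠ ⊥) ∧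
      (∀ s : Sw.{u}, SG N s → ∀ z : A, In N z →
        ∃ x ∈ M, ι (pr s) ⊓ (gen A N ⊓ z) = ι (pr s) ⊓ x) ∧
      (∀ s : Sw.{u}, In N s → ∃ s' ≤ s, SG N s') ∧
      (∀ t : List ℕ, ∀ τ : MX A, In N τ → In N (τ.1 t)) ∧ In N b ∧ In N τ := by
    have h1 := all_xnz Sw.{u} hsgc A ι hι hpe
    have h2 := all_rdl Sw.{u} A ι M hι hdm hM
    have h3 : ∀ᶠ N in club.{u}, ∀ t : List ℕ, ∀ τ : MX A, In N τ → In N (τ.1 t) := by
      obtain ⟨e, he⟩ := exists_surjective_nat (List ℕ)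
      filter_upwards [hcc (fun n N => ∀ τ : MX A, In N τ → In N (τ.1 (e n)))
        fun n => hfun (MX A) A fun τ => τ.1 (e n)] with N h t τ hτ
      obtain ⟨n, rfl⟩ := he t
      exact h n τ hτ
    filter_upwards [h1, h2, hsgc, h3, hconst A b, hconst (MX A) τ] with N g1 g2 g3 g4 g5 g6
    exact ⟨g1, g2, g3, g4, g5, g6⟩
  -- a condition of `Sw` in `N` compatible with `b`
  obtain ⟨s0, m0, -, hm1, hm2⟩ := hdm b hb
  have hs0 : ι (pr s0) ⊓ b ≠ ⊥ := by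
    intro h
    apply hm1
    rw [← le_bot_iff, ← h]
    exact le_inf inf_le_left hm2
  obtain ⟨N, -, hN0, n1, n2, n3, n4, n5, n6⟩ := hne _ hN {⟨Sw.{u}, s0⟩} (Set.countable_singleton _)
  have hs0N : In N s0 := hN0 rfl
  obtain ⟨t0, -, ht0N, ht0⟩ := n1 b n5 s0 hs0N hs0
  obtain ⟨s, hst, hs⟩ := n3 t0 ht0N
  have hsb := ht0 s hst hs
  obtain ⟨xb, hxb, hxb'⟩ := n2 s hs b n5
  choose x hx hx' using fun t : List ℕ => n2 s hs (τ.1 t) (n4 t τ n6)
  obtain ⟨v, hv, hv'⟩ := vb_isMil hM hx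
  obtain ⟨a', ha'⟩ : ∃ a', a' = ι (pr s) ⊓ (gen A N ⊓ b) := ⟨_, rfl⟩
  have ha0 : a' ≠ ⊥ := ha' ▸ hsb
  have hax : a' = ι (pr s) ⊓ xb := ha'.trans hxb'
  have hxτ : ∀ g : Ult A, a' ∈ g → ∀ t, x t ∈ g ↔ τ.1 t ∈ g := by
    intro g hg t
    rw [ha', g.mem_inf, g.mem_inf] at hg
    have h1 : ι (pr s) ⊓ x t ∈ g ↔ ι (pr s) ⊓ (gen A N ⊓ τ.1 t) ∈ g := by rw [hx' t]
    rw [g.mem_inf, g.mem_inf, g.mem_inf] at h1
    have h2 := hg.1
    have h3 := hg.2.1
    tauto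
  -- the new tree
  let y : List ℕ → A := fun t => (v ⊓ x t) ⊔ (vᶜ ⊓ if Inc t then ⊤ else ⊥)
  have hy : ∀ᶠ g in ae A, IsMil {t | y t ∈ g} := by
    filter_upwards [hv'] with g hg
    by_cases h : v ∈ g
    · have : {t | y t ∈ g} = {t | x t ∈ g} := by
        ext t
        simp only [y, Set.mem_ofPred_eq, g.mem_sup, g.mem_inf, g.mem_compl, h]
        tauto
      rw [this]
      exact hg.1 h
    · have : {t | y t ∈ g} = {t | Inc t} := by
        ext t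
        simp only [y, Set.mem_ofPred_eq, g.mem_sup, g.mem_inf, g.mem_compl, h]
        by_cases h1 : Inc t
        · simp [h1, g.mem_top]
        · simp [h1, g.not_bot]
      rw [this]
      exact isMil_inc
  have hyM : ∀ t, y t ∈ M := by
    intro t
    have h1 : VB M (fun g => y t ∈ g) := by
      have h2 : VB M (fun g => (v ∈ g → x t ∈ g) ∧ (¬ v ∈ g → Inc t)) :=
        VB.and hM (VB.imp hM (VB.mem hv) (VB.mem (hx t)))
          (VB.imp hM (VB.not hM (VB.mem hv)) (VB.const hM _))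
      refine h2.congr fun g => ?_
      simp only [y, g.mem_sup, g.mem_inf, g.mem_compl]
      by_cases h : v ∈ g
      · simp [h]
      · by_cases h1 : Inc t
        · simp [h, h1, g.mem_top]
        · simp [h, h1, g.not_bot]
    obtain ⟨z, hz, h3⟩ := h1
    have : y t = z := (eq_of_ae h3).symm
    rw [this]
    exact hz
  let τ' : MX A := ⟨y, hy⟩
  have hττ : ∀ t, a' ⊓ τ'.1 t = a' ⊓ τ.1 t := by
    intro t
    refine eq_of_ae ?_
    filter_upwards [hv', τ.2] with g hg hgτ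
    rw [g.mem_inf, g.mem_inf]
    refine and_congr_right fun h => ?_
    have h1 : v ∈ g := by
      rw [hg]
      have : {t | x t ∈ g} = {t | τ.1 t ∈ g} := Set.ext fun t => hxτ g h t
      rw [this]
      exact hgτ
    change y t ∈ g ↔ _
    simp only [y, g.mem_sup, g.mem_inf, g.mem_compl]
    rw [hxτ g h t]
    tauto
  have hG := H.congr τ τ' a' hττ
  have F := all_alg A C f H.ce
  have hfinf : ∀ p q, f (p ⊓ q) = f p ⊓ f q := F.2.2.1
  have heq : f (ι (pr s)) ⊓ (f xb ⊓ G τ') = f a' ⊓ G τ := by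
    rw [← inf_assoc, ← hfinf, ← hax, hG]
  refine ⟨s, f xb ⊓ G τ', sigC_inf hM' (hMM _ hxb) (hGM τ' hyM), ?_, ?_⟩
  · change f (ι (pr s)) ⊓ (f xb ⊓ G τ') ≠ ⊥
    rw [heq]
    intro h
    apply ha0
    rw [← H.prj_mG_inf τ a', h]
    exact (H.pbot).2 rfl
  · change f (ι (pr s)) ⊓ (f xb ⊓ G τ') ≤ c
    rw [heq]
    refine le_trans (inf_le_inf_right _ (H.le_iff.2 ?_)) hbc
    rw [ha']
    exact inf_le_right.trans inf_le_right

theorem topmw (hprmil : PrmilStatement.{u}) (hpri : PriStatement.{u})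
    (hppmil : PpmilStatement.{u}) (hprc : PrcStatement.{u}) : TopmwStatement.{u} := by
  intro κ I _ _ hI L _ A _ f ι M hG m hm
  have H := milExt (A m)
  have hce : IsCE (mE (A m)) := H.ce
  have hPE : PE (mE (A m)) := (hpri (A m) (MC (A m)) (mE (A m)) hce).1 (hprmil (A m))
  -- the small set
  have hX : #(((mE (A m)) '' M m) ∪ (mG '' {τ : MX (A m) | ∀ t, τ.1 t ∈ M m}) : Set (MC (A m)))
      < κ := by
    refine lt_of_le_of_lt (Cardinal.mk_union_le _ _) ?_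
    refine Cardinal.add_lt_of_lt hI.reg.aleph0_le ?_ ?_
    · exact lt_of_le_of_lt Cardinal.mk_image_le (hG.Mcard m)
    · refine lt_of_le_of_lt Cardinal.mk_image_le ?_
      have h1 : #({τ : MX (A m) | ∀ t, τ.1 t ∈ M m} : Set (MX (A m))) ≤
          #(List ℕ → M m) := by
        refine Cardinal.mk_le_of_injective
          (f := fun τ : {τ : MX (A m) | ∀ t, τ.1 t ∈ M m} => fun t => ⟨τ.1.1 t, τ.2 t⟩) ?_
        intro τ τ' h
        refine Subtype.ext (Subtype.ext (funext fun t => ?_))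
        exact congrArg Subtype.val (congrFun h t)
      refine lt_of_le_of_lt h1 ?_
      have h2 : #(List ℕ → M m) = #(M m) ^ ℵ₀ := by
        simp
      rw [h2]
      exact hI.pow _ (hG.Mcard m)
  obtain ⟨M', hM1, hM2, hM3⟩ := all_idx.2.2.2.2 κ _ _ hI.pow hI.unc hX
  have hdm : DM (fun x => mE (A m) (ι m x)) M' :=
    dm_mil H (ι m) (hG.ιce m) (hG.ιpe m) (M m) (hG.sig m) (hG.Mdm m) M' hM1
      (fun x hx => hM2 (Or.inl (Set.mem_image_of_mem _ hx)))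
      (fun τ hτ => hM2 (Or.inr (Set.mem_image_of_mem _ hτ)))
  refine ⟨M', ⟨?_, ?_⟩, (all_alg2 _ _ _ (ι m) (mE (A m)) (hG.ιce m) hce).1, ?_, ?_, ?_, ?_, ?_,
    hM1, ?_, hM3, hdm, hppmil (A m) (ι m) (hG.ιce m) (hG.ιpe m) (hG.pp m), ?_⟩
  · intro i
    exact (all_alg2 _ _ _ (f i m) (mE (A m)) (hG.ch.ce i m (hm i)) hce).1
  · intro i j hij a
    rw [hG.ch.comp i j m hij (hm j)]
  · intro i x
    rw [hG.ιcomp i m (hm i)]
  · intro i
    exact (all_pec _ _ _ (f i m) (mE (A m)) (hG.ch.ce i m (hm i)) hce).1 (hG.pe i m (hm i)) hPE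
  · exact (all_pec _ _ _ (ι m) (mE (A m)) (hG.ιce m) hce).1 (hG.ιpe m) hPE
  · intro i hi q hq
    have hcomp := (all_alg2 _ _ _ (f (i 0) m) (mE (A m)) (hG.ch.ce (i 0) m (hm _)) hce).2.1
    obtain ⟨-, -, -, -, -, -, -, -, hinfN, -, -, hprj2, -⟩ := all_alg _ _ (mE (A m)) hce
    have h1 : ⨅ n, mE (A m) (f (i n) m (q n)) = mE (A m) (⨅ n, f (i n) m (q n)) :=
      (hinfN _).symm
    change prj (fun a => mE (A m) (f (i 0) m a)) (⨅ n, mE (A m) (f (i n) m (q n))) = q 0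
    rw [h1, hcomp, hprj2]
    exact hG.tp m i hi (fun n => hm _) q hq
  · intro _ hmax
    obtain ⟨b, hb⟩ := exists_gt m
    exact absurd (hm b) (not_le.2 hb)
  · intro i x hx
    exact hM2 (Or.inl (Set.mem_image_of_mem _ (hG.Mmap i m (hm i) x hx)))
  · intro i
    exact hprc _ _ _ (f i m) (mE (A m)) (hG.ch.ce i m (hm i)) hce (hG.pres i m (hm i))
      (hprmil (A m))

end Pool.Agent.Lib.MP_6d445e_gt.H4
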